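import Pool.Agent.Work.MP_9614a6_lc.Lower2

set_option autoImplicit false

/-!
The worst-case sparse bit-size of Fricke trace polynomials: `S(n) = Θ(n^4)`.

The definitions (`IsFricke`, `HasCyclicLength`, `bitSize`, `S`) are in
`Pool/Agent/Work/MP_9614a6_lc/Defs.lean`.  Existence and uniqueness of the Fricke polynomial are
proved in `Pool/Agent/Work/MP_9614a6_lc/Mat.lean` (`existsUnique_isFricke`).
-/

namespace Pool.Agent.Results.MP_9614a6_lc.SparseSizeTheta

open Pool.Agent.Work.MP_9614a6_lc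

/-- `S(n) = Θ(n^4)` as `n → ∞`. -/
theorem result :
    Asymptotics.IsTheta Filter.atTop (fun n : ℕ => (S n : ℝ)) (fun n : ℕ => (n : ℝ) ^ 4) :=
  S_isTheta

end Pool.Agent.Results.MP_9614a6_lc.SparseSizeTheta
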